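import Pool.Agent.H282R3.TT.Generic
import Pool.Agent.Helper292.ForceCH

/-!
# A Tukey-top ultrafilter for which diamond-minus fails

Under the continuum hypothesis there is a Tukey-top ultrafilter `U` on `ω` such that
`diamond-minus(U)` fails; and there is a forcing notion all of whose conditions force that `ω₁` is
preserved and that the continuum hypothesis holds. So ZFC does not prove that every Tukey-top
ultrafilter on `ω` satisfies diamond-minus.

Idea of the proof. The ultrafilter is built in `ω₁` steps, together with an uncountable family `C`
of sets which are not in `U` such that every set `A` in `U` is *full*: for some finite `E ⊆ C`, all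
the finite subfamilies of `C \ E` meet `A` in an infinite set. This makes `U` Tukey-top, the
complements of the members of `C` being the witnesses. A triple `(f, π, 𝒜)` is killed as follows.
If some fibre of `π` can be added to the countable approximation then `π` is constant on a set in
`U`, so that at most `π` many sets can be guessed. Otherwise the union `Z` of countably many
sequences is added; along the sequences of index `l` the restriction of `𝒜` to each `m` is
eventually equal to a limit `V l m`, and either `π` tends to infinity along these sequences, or
the set of the `X` such that `X ∩ m ∈ V l m` for all `m` is finite. All the other `X` are guessed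
on `Z` only where `f ≤ g ∘ π` for a function `g` depending on `X`.
-/

namespace Pool.Agent.Results.MP_522602_lc.TukeyTopNotDiamondMinus

open Pool.Agent.H282R3.TT

theorem result :
    (∃ (P : Type) (_ : Preorder P), Nonempty P ∧ ∀ p : P,
      p ∈ Pool.Agent.Helper292.ForceCH.OmegaOnePreserved P ∧
      p ∈ Pool.Agent.Helper292.ForceCH.CHHolds P) ∧
    (Cardinal.aleph 1 = Cardinal.continuum.{0} →
      ∃ U : Ultrafilter ℕ, TukeyTop U ∧ ¬ DiamondMinus U) := by
  refine ⟨?_, exists_tukeyTop⟩
  obtain ⟨P, i, h1, h2⟩ := Pool.Agent.Helper292.ForceCH.exists_forcing
  exact ⟨P, i, h1, fun p => ⟨(h2 p).1, (h2 p).2.2⟩⟩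

end Pool.Agent.Results.MP_522602_lc.TukeyTopNotDiamondMinus
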